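import Pool.Agent.Q202.IDet.Fwd

set_option autoImplicit false

namespace Pool.Agent.Q202.IDet2

open Pool.Agent.H685R3 Pool.Agent.Q202.IDet

/-- The move number `m` is defined. -/
def GD (V : (ℕ → Bool) → ℕ → Bool → Prop) (x : ℕ → Bool) (m : ℕ) : Prop := ∃ a, V x m a

open Classical in
/-- The decoded play. -/
noncomputable def grd (V : (ℕ → Bool) → ℕ → Bool → Prop) (x : ℕ → Bool) : ℕ → Bool :=
  fun m => decide (V x m true)

/-- The first undefined move exists and belongs to the player `b`. -/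
def GLose (V : (ℕ → Bool) → ℕ → Bool → Prop) (b : ℕ) : Set (ℕ → Bool) :=
  {x | ∃ m, m % 2 = b ∧ ¬ GD V x m ∧ ∀ j < m, GD V x j}

/-- All moves are defined. -/
def GFull (V : (ℕ → Bool) → ℕ → Bool → Prop) : Set (ℕ → Bool) := {x | ∀ m, GD V x m}

/-- The coded payoff set of the player `b`. -/
def GPay (V : (ℕ → Bool) → ℕ → Bool → Prop) (b : ℕ) (B : Set (ℕ → Bool)) : Set (ℕ → Bool) :=
  GLose V (1 - b) ∪ {x | x ∈ GFull V ∧ grd V x ∈ B}

variable {V : (ℕ → Bool) → ℕ → Bool → Prop}

theorem glose_disj {b : ℕ} {x : ℕ → Bool} (hb : b < 2) (h : x ∈ GLose V b) :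
    x ∉ GLose V (1 - b) := by
  rintro ⟨m', h1, h2, h3⟩
  obtain ⟨m, h4, h5, h6⟩ := h
  rcases lt_trichotomy m m' with h7 | h7 | h7
  · exact h5 (h3 m h7)
  · omega
  · exact h2 (h6 m' h7)

theorem glose_full {b : ℕ} {x : ℕ → Bool} (h : x ∈ GLose V b) : x ∉ GFull V := by
  obtain ⟨m, h4, h5, h6⟩ := h
  exact fun h => h5 (h m)

theorem gtrich (x : ℕ → Bool) : x ∈ GFull V ∨ x ∈ GLose V 0 ∨ x ∈ GLose V 1 := by
  classical
  by_cases h : x ∈ GFull V
  · exact Or.inl h
  right
  have h1 : ∃ m, ¬ GD V x m := by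
    by_contra h2
    push Not at h2
    exact h h2
  have h2 := Nat.find_spec h1
  have h3 : ∀ j < Nat.find h1, GD V x j := fun j hj => by
    by_contra h4
    exact Nat.find_min h1 hj h4
  rcases Nat.mod_two_eq_zero_or_one (Nat.find h1) with h4 | h4
  · exact Or.inl ⟨_, h4, h2, h3⟩
  · exact Or.inr ⟨_, h4, h2, h3⟩

theorem gpay_compl (A : Set (ℕ → Bool)) : (GPay V 0 A)ᶜ = GPay V 1 Aᶜ := by
  ext x
  simp only [GPay, Set.mem_compl_iff, Set.mem_union, Set.mem_ofPred_eq, Nat.sub_zero, Nat.sub_self]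
  rcases gtrich (V := V) x with h | h | h
  · have h0 : x ∉ GLose V 0 := fun h' => glose_full h' h
    have h1 : x ∉ GLose V 1 := fun h' => glose_full h' h
    simp [h, h0, h1]
  · have h1 : x ∉ GLose V 1 := glose_disj (b := 0) (by norm_num) h
    have h2 : x ∉ GFull V := glose_full h
    simp [h, h1, h2]
  · have h1 : x ∉ GLose V 0 := glose_disj (b := 1) (by norm_num) h
    have h2 : x ∉ GFull V := glose_full h
    simp [h, h1, h2]

/-- A requirement which can be met infinitely often in every cylinder of a closed set is met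
infinitely often by an element of this set. -/
theorem fusion {P : Set (ℕ → Bool)} (hP : IsClosed P) (hne : P.Nonempty) {ι : Type} [Countable ι]
    (Q : ι → List Bool → Prop)
    (h : ∀ i, ∀ z ∈ P, ∀ n, ∃ z' ∈ P, (∀ k < n, z' k = z k) ∧ ∃ n', n ≤ n' ∧ Q i (hist z' n')) :
    ∃ z ∈ P, ∀ i, ∀ N, ∃ n, N ≤ n ∧ Q i (hist z n) := by
  classical
  rcases isEmpty_or_nonempty ι with he | hne'
  · obtain ⟨z, hz⟩ := hne
    exact ⟨z, hz, fun i => he.elim i⟩
  obtain ⟨e, he⟩ := exists_surjective_nat (ι × ℕ)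
  choose! G hGP hG M hM hQ using h
  obtain ⟨z₀, hz₀⟩ := hne
  let st : ℕ → (ℕ → Bool) × ℕ := fun j => Nat.rec (z₀, 0)
    (fun j p => (G (e j).1 p.1 (max p.2 (e j).2),
      max (M (e j).1 p.1 (max p.2 (e j).2)) (p.2 + 1))) j
  have hs : ∀ j, st (j + 1) = (G (e j).1 (st j).1 (max (st j).2 (e j).2),
      max (M (e j).1 (st j).1 (max (st j).2 (e j).2)) ((st j).2 + 1)) := fun j => rfl
  have hmem : ∀ j, (st j).1 ∈ P := by
    intro j
    induction j with
    | zero => exact hz₀
    | succ j ih =>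
      rw [hs]
      exact hGP _ _ ih _
  have hn : ∀ j, j ≤ (st j).2 := by
    intro j
    induction j with
    | zero => exact Nat.zero_le _
    | succ j ih =>
      rw [hs]
      simp only
      omega
  have hstep : ∀ j k, k < (st j).2 → (st (j + 1)).1 k = (st j).1 k := by
    intro j k hk
    rw [hs]
    exact hG _ _ (hmem j) _ k (lt_of_lt_of_le hk (le_max_left _ _))
  have hmono : ∀ j, (st j).2 ≤ (st (j + 1)).2 := by
    intro j
    rw [hs]
    simp only
    omega
  have hagree : ∀ i j, ∀ k < (st j).2, (st (j + i)).1 k = (st j).1 k := by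
    intro i
    induction i with
    | zero => intro j k _; rfl
    | succ i ih =>
      intro j k hk
      have h1 : j + (i + 1) = (j + 1) + i := by omega
      rw [h1, ih (j + 1) k (lt_of_lt_of_le hk (hmono j)), hstep j k hk]
  have hf : ∀ j, ∀ k < (st j).2, (st (k + 1)).1 k = (st j).1 k := by
    intro j k hk
    rcases le_total j (k + 1) with h | h
    · obtain ⟨i, hi⟩ := Nat.exists_eq_add_of_le h
      rw [hi]
      exact hagree i j k hk
    · obtain ⟨i, hi⟩ := Nat.exists_eq_add_of_le h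
      rw [hi]
      exact (hagree i (k + 1) k (hn (k + 1))).symm
  refine ⟨fun k => (st (k + 1)).1 k, ?_, fun i N => ?_⟩
  · by_contra hz
    obtain ⟨n, hn'⟩ := cyl_of_open hP.isOpen_compl hz
    refine hn' (st n).1 (fun k hk => ?_) (hmem n)
    exact (hf n k (lt_of_lt_of_le hk (hn n))).symm
  · obtain ⟨j, hj⟩ := he (i, N)
    have h1 := hM (e j).1 (st j).1 (hmem j) (max (st j).2 (e j).2)
    have h2 := hQ (e j).1 (st j).1 (hmem j) (max (st j).2 (e j).2)
    refine ⟨M (e j).1 (st j).1 (max (st j).2 (e j).2), ?_, ?_⟩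
    · rw [hj] at h1 ⊢
      exact (le_max_right _ _).trans h1
    · have h3 : hist (fun k => (st (k + 1)).1 k) (M (e j).1 (st j).1 (max (st j).2 (e j).2)) =
          hist (G (e j).1 (st j).1 (max (st j).2 (e j).2))
            (M (e j).1 (st j).1 (max (st j).2 (e j).2)) := by
        refine hist_congr fun k hk => ?_
        have h4 : k < (st (j + 1)).2 := by
          rw [hs]
          simp only
          omega
        have h5 := hf (j + 1) k h4
        rw [hs] at h5
        exact h5
      rw [h3]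
      rw [hj] at h2 ⊢
      exact h2

end Pool.Agent.Q202.IDet2
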