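import Mathlib

set_option autoImplicit false

namespace Pool.Agent.Q202.IDet2

/-- The column of the position `q`. -/
def col (q : ℕ) : ℕ := 2 * padicValNat 2 (q / 2 + 1) + q % 2

theorem col_mod (q : ℕ) : col q % 2 = q % 2 := by unfold col; omega

theorem card_half (P : ℕ → Prop) [DecidablePred P] (T : ℕ) :
    ((Finset.range (2 * T)).filter fun q => P (q / 2)).card =
      2 * ((Finset.range T).filter P).card := by
  induction T with
  | zero => simp
  | succ T ih =>
    have h1 : 2 * (T + 1) = 2 * T + 1 + 1 := by ring
    rw [h1, Finset.range_add_one, Finset.range_add_one, Finset.range_add_one, Finset.filter_insert,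
      Finset.filter_insert, Finset.filter_insert]
    have e1 : (2 * T + 1) / 2 = T := by omega
    have e2 : 2 * T / 2 = T := by omega
    rw [e1, e2]
    have h3 : ∀ k, k ≥ 2 * T → k ∉ (Finset.range (2 * T)).filter fun q => P (q / 2) := by
      intro k hk hk'
      have := Finset.mem_range.1 (Finset.mem_filter.1 hk').1
      omega
    have h4 : T ∉ (Finset.range T).filter P := by
      intro hk'
      have := Finset.mem_range.1 (Finset.mem_filter.1 hk').1
      omega
    by_cases hP : P T
    · rw [if_pos hP, if_pos hP, if_pos hP, Finset.card_insert_of_notMem,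
        Finset.card_insert_of_notMem (h3 _ le_rfl), Finset.card_insert_of_notMem h4, ih]
      · ring
      · rw [Finset.mem_insert]
        rintro (h | h)
        · omega
        · exact h3 _ (by omega) h
    · rw [if_neg hP, if_neg hP, if_neg hP, ih]

theorem card_half' (P : ℕ → Prop) [DecidablePred P] (T : ℕ) {b : ℕ} (hb : b < 2) :
    ((Finset.range (2 * T)).filter fun q => P (q / 2) ∧ q % 2 = b).card =
      ((Finset.range T).filter P).card := by
  induction T with
  | zero => simp
  | succ T ih =>
    have h1 : 2 * (T + 1) = 2 * T + 1 + 1 := by ring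
    rw [h1, Finset.range_add_one, Finset.range_add_one, Finset.range_add_one, Finset.filter_insert,
      Finset.filter_insert, Finset.filter_insert]
    have e1 : (2 * T + 1) / 2 = T := by omega
    have e2 : 2 * T / 2 = T := by omega
    have e3 : (2 * T + 1) % 2 = 1 := by omega
    have e4 : 2 * T % 2 = 0 := by omega
    rw [e1, e2, e3, e4]
    have h3 : ∀ k, k ≥ 2 * T → k ∉ (Finset.range (2 * T)).filter fun q => P (q / 2) ∧ q % 2 = b := by
      intro k hk hk'
      have := Finset.mem_range.1 (Finset.mem_filter.1 hk').1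
      omega
    have h4 : T ∉ (Finset.range T).filter P := by
      intro hk'
      have := Finset.mem_range.1 (Finset.mem_filter.1 hk').1
      omega
    by_cases hP : P T
    · rcases (by omega : b = 0 ∨ b = 1) with rfl | rfl
      · rw [if_neg (by simp), if_pos ⟨hP, rfl⟩, if_pos hP,
          Finset.card_insert_of_notMem (h3 _ le_rfl), Finset.card_insert_of_notMem h4, ih]
      · rw [if_pos ⟨hP, rfl⟩, if_neg (by simp), if_pos hP,
          Finset.card_insert_of_notMem (h3 _ (by omega)), Finset.card_insert_of_notMem h4, ih]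
    · rw [if_neg (fun h => hP h.1), if_neg (fun h => hP h.1), if_neg hP, ih]

theorem card_dvd (k r : ℕ) :
    ((Finset.range (2 ^ k * r)).filter fun t => 2 ^ k ∣ t + 1).card = r := by
  rw [Nat.card_multiples, Nat.mul_div_cancel_left _ (by positivity)]

theorem le_val_iff (t k : ℕ) : k ≤ padicValNat 2 (t + 1) ↔ 2 ^ k ∣ t + 1 :=
  (padicValNat_dvd_iff_le (Nat.succ_ne_zero t)).symm

/-- Few positions are in a column with a large number. -/
theorem card_big (m r : ℕ) :
    ((Finset.range (2 * (2 ^ m * r))).filter fun q => 2 * m ≤ col q).card = 2 * r := by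
  have h1 : ((Finset.range (2 * (2 ^ m * r))).filter fun q => 2 * m ≤ col q) =
      (Finset.range (2 * (2 ^ m * r))).filter fun q => 2 ^ m ∣ q / 2 + 1 := by
    refine Finset.filter_congr fun q _ => ?_
    rw [← le_val_iff]
    unfold col
    omega
  rw [h1, card_half (fun t => 2 ^ m ∣ t + 1), card_dvd]

/-- Every column has positive density. -/
theorem card_col (j r : ℕ) :
    ((Finset.range (2 * (2 ^ (j / 2 + 1) * r))).filter fun q => col q = j).card = r := by
  have h1 : ((Finset.range (2 * (2 ^ (j / 2 + 1) * r))).filter fun q => col q = j) =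
      (Finset.range (2 * (2 ^ (j / 2 + 1) * r))).filter
        fun q => padicValNat 2 (q / 2 + 1) = j / 2 ∧ q % 2 = j % 2 := by
    refine Finset.filter_congr fun q _ => ?_
    unfold col
    omega
  rw [h1, card_half' (fun t => padicValNat 2 (t + 1) = j / 2) _ (Nat.mod_lt _ (by norm_num))]
  have h2 : ((Finset.range (2 ^ (j / 2 + 1) * r)).filter fun t => 2 ^ (j / 2) ∣ t + 1) =
      ((Finset.range (2 ^ (j / 2 + 1) * r)).filter fun t => padicValNat 2 (t + 1) = j / 2) ∪
      ((Finset.range (2 ^ (j / 2 + 1) * r)).filter fun t => 2 ^ (j / 2 + 1) ∣ t + 1) := by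
    ext t
    simp only [Finset.mem_filter, Finset.mem_union, Finset.mem_range, ← le_val_iff]
    omega
  have h3 : Disjoint
      ((Finset.range (2 ^ (j / 2 + 1) * r)).filter fun t => padicValNat 2 (t + 1) = j / 2)
      ((Finset.range (2 ^ (j / 2 + 1) * r)).filter fun t => 2 ^ (j / 2 + 1) ∣ t + 1) := by
    rw [Finset.disjoint_left]
    intro t ht ht'
    rw [Finset.mem_filter] at ht ht'
    rw [← le_val_iff] at ht'
    omega
  have h4 := congrArg Finset.card h2
  rw [Finset.card_union_of_disjoint h3, card_dvd (j / 2 + 1) r] at h4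
  have h5 : 2 ^ (j / 2 + 1) * r = 2 ^ (j / 2) * (2 * r) := by ring
  rw [h5, card_dvd (j / 2) (2 * r)] at h4
  rw [h5]
  omega

end Pool.Agent.Q202.IDet2
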