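import Pool.Agent.Q202.IDet2.For
import Pool.Agent.Y588.TC.Main

set_option autoImplicit false

namespace Pool.Agent.Q202.IDet2

open Encodable
open Nat.Partrec (Code)
open Pool.Agent.H685R3 Pool.Agent.Q202.IDet Pool.Agent.Helper227 Pool.Agent.Y588.TC

/-- The decoder which changes some blocks of length `b`. -/
def blk (b : ℕ) : ℕ → List Bool → List Bool → List Bool
  | 0, _, _ => []
  | _ + 1, _, [] => []
  | t + 1, L, false :: s => L.take b ++ blk b t (L.drop b) s
  | t + 1, L, true :: s =>
      s.take (L.take b).length ++ blk b t (L.drop b) (s.drop (L.take b).length)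

theorem count_pos_of_ne : ∀ L L' : List Bool, L.length = L'.length → L ≠ L' →
    1 ≤ (List.zipWith xor L L').count true
  | [], [], _, h => absurd rfl h
  | [], _ :: _, h, _ => absurd h (by simp)
  | _ :: _, [], h, _ => absurd h (by simp)
  | a :: L, b :: L', h, hne => by
    rw [List.zipWith_cons_cons, List.count_cons]
    by_cases hab : a = b
    · subst hab
      have h1 := count_pos_of_ne L L' (by simpa using h) (fun h2 => hne (by rw [h2]))
      omega
    · have : xor a b = true := by
        cases a <;> cases b <;> simp_all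
      rw [this]
      simp

theorem blk_spec (b : ℕ) : ∀ (t : ℕ) (L L' : List Bool), L.length = L'.length →
    L.length ≤ b * t → ∃ s : List Bool,
      s.length ≤ t + b * (List.zipWith xor L L').count true ∧ blk b t L s = L' := by
  intro t
  induction t with
  | zero =>
    intro L L' h h1
    rw [mul_zero] at h1
    have h2 : L' = [] := List.length_eq_zero_iff.1 (by omega)
    exact ⟨[], by simp, by rw [h2]; rfl⟩
  | succ t ih =>
    intro L L' h h1
    have hb : b * (t + 1) = b * t + b := by ring
    obtain ⟨s, h2, h3⟩ := ih (L.drop b) (L'.drop b) (by simp [h])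
      (by rw [List.length_drop]; omega)
    have hz : List.zipWith xor L L' = List.zipWith xor (L.take b) (L'.take b) ++
        List.zipWith xor (L.drop b) (L'.drop b) := by
      rw [← List.take_zipWith, ← List.drop_zipWith, List.take_append_drop]
    rw [hz, List.count_append]
    by_cases h4 : L.take b = L'.take b
    · refine ⟨false :: s, ?_, ?_⟩
      · rw [List.length_cons, mul_add]
        omega
      · rw [blk, h3, h4, List.take_append_drop]
    · have h5 := count_pos_of_ne (L.take b) (L'.take b) (by simp [h]) h4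
      have h6 : (L'.take b).length = (L.take b).length := by simp [h]
      refine ⟨true :: (L'.take b ++ s), ?_, ?_⟩
      · rw [List.length_cons, List.length_append, mul_add]
        have h7 : (L'.take b).length ≤ b := by simp
        have h8 : b * 1 ≤ b * (List.zipWith xor (L.take b) (L'.take b)).count true :=
          Nat.mul_le_mul_left b h5
        omega
      · rw [blk, List.take_left' h6, List.drop_left' h6, h3, List.take_append_drop]

theorem hist_succ (x : ℕ → Bool) (n : ℕ) : hist x (n + 1) = hist x n ++ [x n] := by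
  simp [hist, List.range_succ]

theorem count_diff (x y : ℕ → Bool) (n : ℕ) :
    (List.zipWith xor (hist x n) (hist y n)).count true =
      ((Finset.range n).filter fun i => x i ≠ y i).card := by
  induction n with
  | zero => simp [hist]
  | succ n ih =>
    rw [hist_succ, hist_succ, List.zipWith_append (by simp), List.count_append, ih,
      Finset.range_add_one, Finset.filter_insert]
    by_cases h : x n = y n
    · rw [if_neg (by simpa using h), h]
      simp
    · rw [if_pos h, Finset.card_insert_of_notMem (by simp)]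
      have : xor (x n) (y n) = true := by
        cases hx : x n <;> cases hy : y n <;> simp_all
      simp [this]

/-- The set of the positions at which `x` and `y` differ has density zero along the set `S`. -/
def SmallChange (S : Set ℕ) (x y : ℕ → Bool) : Prop :=
  ∀ k : ℕ, ∃ N, ∀ n ∈ S, N ≤ n →
    (k + 1) * ((Finset.range n).filter fun i => x i ≠ y i).card ≤ n

theorem low_of_small {S : Set ℕ} {x y : ℕ → Bool} (h : SmallChange S x y) :
    Low S (fun b L s => blk (b + 1) (L.length / (b + 1) + 1) L s) y x := by
  intro k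
  obtain ⟨b, hb⟩ : ∃ b, b + 1 = 4 * (k + 1) := ⟨4 * k + 3, by ring⟩
  obtain ⟨c, hc⟩ : ∃ c, c + 1 = (b + 1) * (b + 1) := ⟨b * b + 2 * b, by ring⟩
  obtain ⟨N, hN⟩ := h c
  refine ⟨b, max N (b + 1), fun n hnS hn => ?_⟩
  have h1 := hN n hnS (le_trans (le_max_left _ _) hn)
  have h2 : b + 1 ≤ n := le_trans (le_max_right _ _) hn
  obtain ⟨s, h3, h4⟩ := blk_spec (b + 1) (n / (b + 1) + 1) (hist x n) (hist y n) (by simp) (by
    rw [hist_length]
    exact (Nat.lt_mul_div_succ n (Nat.succ_pos b)).le)
  refine ⟨s, ?_, ?_⟩
  · rw [count_diff] at h3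
    generalize ((Finset.range n).filter fun i => x i ≠ y i).card = d at *
    have h5 : (b + 1) * (n / (b + 1)) ≤ n := Nat.mul_div_le _ _
    rw [hc] at h1
    have h6 : (b + 1) * s.length ≤ 4 * n := by
      calc (b + 1) * s.length ≤ (b + 1) * (n / (b + 1) + 1 + (b + 1) * d) :=
            Nat.mul_le_mul_left _ h3
        _ = (b + 1) * (n / (b + 1)) + (b + 1) + (b + 1) * (b + 1) * d := by ring
        _ ≤ 4 * n := by omega
    rw [hb] at h6
    have h7 : 4 * ((k + 1) * s.length) ≤ 4 * n := by
      calc 4 * ((k + 1) * s.length) = 4 * (k + 1) * s.length := by ring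
        _ ≤ 4 * n := h6
    omega
  · change blk (b + 1) ((hist x n).length / (b + 1) + 1) (hist x n) s = hist y n
    rw [hist_length]
    exact h4

theorem low_mono {ι κ : Type} {S : Set ℕ} {dd : ι → Dec} {ee : κ → Dec} {g : ι → κ}
    (hg : ∀ i, ee (g i) = dd i) {p x : ℕ → Bool} (h : Low S dd p x) : Low S ee p x := by
  intro k
  obtain ⟨i, N, hN⟩ := h k
  exact ⟨g i, N, by rw [hg]; exact hN⟩

/-- `x` and `y` are not distinguished by the sets `W`, `D` and by the map `F`. -/
def Same (W D : Set (ℕ → Bool)) (F : (ℕ → Bool) → ℕ → Bool) (x y : ℕ → Bool) : Prop :=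
  (x ∈ W ↔ y ∈ W) ∧ (x ∈ D ↔ y ∈ D) ∧ F x = F y

/-- `W` and `D` are Borel sets, `F` is a Borel map, and for every payoff set `A` the game with the
payoff set `W ∪ (D ∩ F⁻¹ A)` is equivalent to the game with the payoff set `A`. -/
def Codes (W D : Set (ℕ → Bool)) (F : (ℕ → Bool) → ℕ → Bool) : Prop :=
  MeasurableSet W ∧ MeasurableSet D ∧ Measurable F ∧
    ∀ A : Set (ℕ → Bool), (WinsI (W ∪ {x | x ∈ D ∧ F x ∈ A}) ↔ WinsI A) ∧
      (WinsII (W ∪ {x | x ∈ D ∧ F x ∈ A}) ↔ WinsII A)

theorem main3 {S : Set ℕ} (hS : S.Infinite) {ι : Type} [Countable ι] (dd : ι → Dec) :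
    ∃ W D F, Codes W D F ∧ (∀ x y, Low S dd x y → Low S dd y x → Same W D F x y) ∧
      ∀ x y, SmallChange S x y → Same W D F x y := by
  let bb : ℕ → Dec := fun b L s => blk (b + 1) (L.length / (b + 1) + 1) L s
  obtain ⟨W, D, F, hW, hD, hF, h1, h2⟩ := main2 hS (Sum.elim dd bb)
  refine ⟨W, D, F, ⟨hW, hD, hF, h2⟩, fun x y hxy hyx => ?_, fun x y hxy => ?_⟩
  · exact h1 x y (low_mono (g := Sum.inl) (fun _ => rfl) hxy)
      (low_mono (g := Sum.inl) (fun _ => rfl) hyx)
  · have hyx : SmallChange S y x := by
      intro k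
      obtain ⟨N, hN⟩ := hxy k
      refine ⟨N, fun n hnS hn => ?_⟩
      have h3 := hN n hnS hn
      have h4 : ((Finset.range n).filter fun i => y i ≠ x i) =
          (Finset.range n).filter fun i => x i ≠ y i :=
        Finset.filter_congr fun i _ => ne_comm
      rw [h4]
      exact h3
    exact h1 x y (low_mono (g := Sum.inr) (fun _ => rfl) (low_of_small hyx))
      (low_mono (g := Sum.inr) (fun _ => rfl) (low_of_small hxy))

/-- The conditional Kolmogorov complexity of the first `n` bits of `x`, given the first `n` bits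
of `y`, is `o(n)`, for `n` in the set `S`. -/
def InfoLE (S : Set ℕ) (x y : ℕ → Bool) : Prop :=
  ∀ k : ℕ, ∃ (c : Code) (N : ℕ), ∀ n ∈ S, N ≤ n → ∃ s : List Bool,
    (k + 1) * s.length ≤ n ∧ encode (hist x n) ∈ c.eval (encode (hist y n, s))

/-- A program computes the first `n` bits of `x` from `n` and from the first `n + o(n)` bits of
`y`, for `n` in the set `S`. -/
def SubUse (S : Set ℕ) (x y : ℕ → Bool) : Prop :=
  ∃ c : Code, ∀ k : ℕ, ∃ N, ∀ n ∈ S, N ≤ n → ∃ u,
    (k + 1) * u ≤ n ∧ encode (hist x n) ∈ c.eval (encode (n, hist y (n + u)))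

/-- A program computes the first `n` bits of `x` from `n` and from the first `C * n` bits of `y`,
for all `n`. -/
def LinUse (x y : ℕ → Bool) : Prop :=
  ∃ (c : Code) (C : ℕ), ∀ n, encode (hist x n) ∈ c.eval (encode (n, hist y (C * n)))

/-- `A` is closed under Turing equivalence with linear use. -/
def LinInvariant (A : Set (ℕ → Bool)) : Prop :=
  ∀ x y, LinUse x y → LinUse y x → x ∈ A → y ∈ A

open Classical in
/-- The decoder given by a program. -/
noncomputable def cdec (c : Code) : Dec := fun L s =>
  if h : ∃ R : List Bool, encode R ∈ c.eval (encode (L, s)) then h.choose else []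

theorem cdec_eq {c : Code} {L s R : List Bool} (h : encode R ∈ c.eval (encode (L, s))) :
    cdec c L s = R := by
  have h1 : ∃ R : List Bool, encode R ∈ c.eval (encode (L, s)) := ⟨R, h⟩
  unfold cdec
  rw [dif_pos h1]
  exact encode_injective (Part.mem_unique h1.choose_spec h)

theorem low_of_info {S : Set ℕ} {x y : ℕ → Bool} (h : InfoLE S x y) : Low S cdec x y := by
  intro k
  obtain ⟨c, N, hN⟩ := h k
  refine ⟨c, N, fun n hnS hn => ?_⟩
  obtain ⟨s, h1, h2⟩ := hN n hnS hn
  exact ⟨s, h1, cdec_eq h2⟩

theorem exists_code_of {α : Type} [Primcodable α] {f : α →. ℕ} (hf : Partrec f) :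
    ∃ c : Code, ∀ p, c.eval (encode p) = f p := by
  obtain ⟨c, hc⟩ := Code.exists_code.1 hf
  refine ⟨c, fun p => ?_⟩
  rw [hc]
  simp only [encodek, Part.coe_some, Part.bind_some]
  exact Part.map_id' (fun _ => rfl) _

theorem info_of_use {S : Set ℕ} {x y : ℕ → Bool} (h : SubUse S x y) : InfoLE S x y := by
  obtain ⟨c, hc⟩ := h
  have hf : Partrec fun p : List Bool × List Bool =>
      c.eval (encode (p.1.length, p.1 ++ p.2)) := by
    refine Code.eval_part.comp (Computable.const c) ?_
    exact Computable.encode.comp ((Computable.list_length.comp Computable.fst).pair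
      (Computable.list_append.comp Computable.fst Computable.snd))
  obtain ⟨c', hc'⟩ := exists_code_of hf
  intro k
  obtain ⟨N, hN⟩ := hc k
  refine ⟨c', N, fun n hnS hn => ?_⟩
  obtain ⟨u, h1, h2⟩ := hN n hnS hn
  have h3 : hist y n ++ (hist y (n + u)).drop n = hist y (n + u) := by
    have h4 : hist y n = (hist y (n + u)).take n := by
      unfold hist
      rw [← List.map_take, List.take_range, Nat.min_eq_left (Nat.le_add_right n u)]
    rw [h4, List.take_append_drop]
  refine ⟨(hist y (n + u)).drop n, ?_, ?_⟩
  · rw [List.length_drop, hist_length, Nat.add_sub_cancel_left]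
    exact h1
  · rw [hc']
    simp only
    rw [hist_length, h3]
    exact h2

theorem main4 {S : Set ℕ} (hS : S.Infinite) :
    ∃ W D F, Codes W D F ∧ (∀ x y, InfoLE S x y → InfoLE S y x → Same W D F x y) ∧
      ∀ x y, SmallChange S x y → Same W D F x y := by
  obtain ⟨W, D, F, h1, h2, h3⟩ := main3 hS cdec
  exact ⟨W, D, F, h1, fun x y hxy hyx => h2 x y (low_of_info hxy) (low_of_info hyx), h3⟩

theorem lin_tLe {x y : ℕ → Bool} (h : LinUse x y) : TLe x y := by
  obtain ⟨c, C, hc⟩ := h
  rw [tLe_iff_SI]
  have h1 : SI y fun a : ℕ × Bool => ∃ σ : List Bool,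
      (∀ i < σ.length, y i = σ.getD i false) ∧ (σ.length = C * (a.1 + 1) ∧
        ∃ R : List Bool, encode R ∈ c.eval (encode (a.1 + 1, σ)) ∧ R.getD a.1 false = a.2) := by
    refine SI.ex (p := fun (a : ℕ × Bool) (σ : List Bool) =>
      (∀ i < σ.length, y i = σ.getD i false) ∧ (σ.length = C * (a.1 + 1) ∧
        ∃ R : List Bool, encode R ∈ c.eval (encode (a.1 + 1, σ)) ∧ R.getD a.1 false = a.2))
      (SI.and ?_ (SI.and ?_ (SI.ex (p := fun (x : (ℕ × Bool) × List Bool) (R : List Bool) =>
        encode R ∈ c.eval (encode (x.1.1 + 1, x.2)) ∧ R.getD x.1.1 false = x.1.2)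
        (SI.and ?_ ?_))))
    · refine SI.all_lt (α := (ℕ × Bool) × List Bool) (p := fun x i => y i = x.2.getD i false)
        (f := fun x => x.2.length) ?_ (Primrec.list_length.comp Primrec.snd)
      exact SI.query.comp (f := fun z : ((ℕ × Bool) × List Bool) × ℕ => (z.2, z.1.2.getD z.2 false))
        (Primrec.snd.pair ((Primrec.list_getD false).comp (Primrec.snd.comp Primrec.fst)
          Primrec.snd))
    · refine SI.of_prim (Primrec.eq.comp (Primrec.list_length.comp Primrec.snd) ?_)
      exact Primrec.nat_mul.comp (Primrec.const C)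
        (Primrec.succ.comp (Primrec.fst.comp Primrec.fst))
    · refine SI.of_s1 (s1_graph.comp (f := fun z : ((ℕ × Bool) × List Bool) × List Bool =>
        ((c, encode (z.1.1.1 + 1, z.1.2)), encode z.2)) ?_)
      refine Primrec.pair (Primrec.pair (Primrec.const c) (Primrec.encode.comp (Primrec.pair
        (Primrec.succ.comp (Primrec.fst.comp (Primrec.fst.comp Primrec.fst)))
        (Primrec.snd.comp Primrec.fst)))) (Primrec.encode.comp Primrec.snd)
    · refine SI.of_prim (Primrec.eq.comp ((Primrec.list_getD false).comp Primrec.snd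
        (Primrec.fst.comp (Primrec.fst.comp Primrec.fst)))
        (Primrec.snd.comp (Primrec.fst.comp Primrec.fst)))
  refine h1.of_eq fun a => ?_
  constructor
  · rintro ⟨σ, h2, h3, R, h4, h5⟩
    have h6 : hist y (C * (a.1 + 1)) = σ := by
      refine List.ext_getElem (by rw [hist_length, h3]) fun i h7 h8 => ?_
      rw [← List.getD_eq_getElem _ false h7, hist_getD (by rw [hist_length] at h7; exact h7),
        h2 i h8, List.getD_eq_getElem _ _ h8]
    have h7 := hc (a.1 + 1)
    rw [h6] at h7
    rw [encode_injective (Part.mem_unique h4 h7), hist_getD (Nat.lt_succ_self _)] at h5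
    exact h5
  · intro h2
    refine ⟨hist y (C * (a.1 + 1)), fun i hi => ?_, hist_length _ _, hist x (a.1 + 1),
      hc (a.1 + 1), ?_⟩
    · rw [hist_length] at hi
      exact (hist_getD hi).symm
    · rw [hist_getD (Nat.lt_succ_self _)]
      exact h2

theorem lin_of_primrec {h : ℕ → ℕ} (hh : Primrec h) (hb : ∀ n i, i < n → h i < 4 * n)
    (x : ℕ → Bool) : LinUse (x ∘ h) x := by
  have hf : Primrec fun p : ℕ × List Bool =>
      encode ((List.range p.1).map fun i => p.2.getD (h i) false) := by
    refine Primrec.encode.comp (Primrec.list_map (Primrec.list_range.comp Primrec.fst) ?_)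
    exact (Primrec.list_getD false).comp (Primrec.snd.comp Primrec.fst) (hh.comp Primrec.snd)
  obtain ⟨c, hc⟩ := exists_code_of hf.to_comp.partrec
  refine ⟨c, 4, fun n => ?_⟩
  rw [hc]
  have h1 : (List.range n).map (fun i => (hist x (4 * n)).getD (h i) false) = hist (x ∘ h) n := by
    refine List.map_congr_left fun i hi => ?_
    exact hist_getD (hb n i (List.mem_range.1 hi))
  change encode (hist (x ∘ h) n) ∈
    Part.some (encode ((List.range n).map fun i => (hist x (4 * n)).getD (h i) false))
  rw [h1]
  exact Part.mem_some _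

theorem quarter_le (n : ℕ) : quarter n ≤ n + 2 := by
  unfold quarter
  split_ifs <;> omega

theorem third_le (n : ℕ) : third n ≤ n + n ⊔ 2 := by
  unfold third
  split_ifs <;> omega

theorem quarter3_le (n : ℕ) : quarter (quarter (quarter n)) ≤ n + 3 := by
  rcases Nat.even_or_odd' n with ⟨k, rfl | rfl⟩ <;>
    rcases Nat.even_or_odd' k with ⟨m, rfl | rfl⟩
  · rw [quarter_zero, quarter_two, quarter_one]
    omega
  · rw [quarter_two, quarter_one, quarter_three]
    omega
  · rw [quarter_one, quarter_three, quarter_zero]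
    omega
  · rw [quarter_three, quarter_zero, quarter_two]
    omega

theorem third2_le (n : ℕ) : third (third n) ≤ 2 * n + 1 := by
  rcases Nat.even_or_odd' n with ⟨k, rfl | rfl⟩
  · rcases Nat.even_or_odd' k with ⟨m, rfl | rfl⟩
    · rw [third_zero, third_two]
      omega
    · rw [third_two, third_odd]
      omega
  · rw [third_odd, third_zero]
    omega

theorem LinInvariant.circle {A : Set (ℕ → Bool)} (hA : LinInvariant A) : CircleInvariant A := by
  have key : ∀ f g : ℕ → ℕ, Primrec f → Primrec g → (∀ n i, i < n → f i < 4 * n) →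
      (∀ n i, i < n → g i < 4 * n) → (∀ n, f (g n) = n) → ∀ x, x ∘ f ∈ A ↔ x ∈ A := by
    intro f g hf hg bf bg h x
    have h1 : LinUse (x ∘ f) x := lin_of_primrec hf bf x
    have h2 : LinUse ((x ∘ f) ∘ g) (x ∘ f) := lin_of_primrec hg bg (x ∘ f)
    have h3 : (x ∘ f) ∘ g = x := by
      funext n
      simp only [Function.comp_apply, h]
    rw [h3] at h2
    exact ⟨fun h' => hA _ _ h1 h2 h', fun h' => hA _ _ h2 h1 h'⟩
  refine fun x => ⟨?_, ?_⟩
  · refine key quarter (fun n => quarter (quarter (quarter n))) primrec_quarter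
      (primrec_quarter.comp (primrec_quarter.comp primrec_quarter)) (fun n i hi => ?_)
      (fun n i hi => ?_) quarter_four x
    · have := quarter_le i
      omega
    · have := quarter3_le i
      omega
  · refine key third (fun n => third (third n)) primrec_third
      (primrec_third.comp primrec_third) (fun n i hi => ?_) (fun n i hi => ?_) third_three x
    · have := third_le i
      omega
    · have := third2_le i
      omega

theorem lin_of_turing {A : Set (ℕ → Bool)} (hA : TuringInvariant A) : LinInvariant A :=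
  fun x y h1 h2 h3 => hA x y (lin_tLe h1) (lin_tLe h2) h3

end Pool.Agent.Q202.IDet2
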