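import Pool.Agent.Q202.IDet2.Low

set_option autoImplicit false

namespace Pool.Agent.Q202.IDet2

open Pool.Agent.H685R3 Pool.Agent.Q202.IDet

variable {ι : Type} {S : Set ℕ} {dd : ι → Dec} {f : ℕ → Bool → Bool}

/-- If the move `m` is defined in all plays of a set `Pl`, then it has a fixed value in all full
plays of a smaller set of this form. -/
theorem freeze2 [Countable ι] (hf : Rnd S dd f) {s : List Bool → Bool} {b m : ℕ}
    {κ : ℕ → Option Bool} {x : ℕ → Bool} {n : ℕ}
    (h : ∀ z ∈ Pl s b κ x n, GD (VV S dd f) z m) :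
    ∃ t : (ℕ → Bool) × ℕ × Bool, t.1 ∈ Pl s b κ x n ∧ n ≤ t.2.1 ∧
      ∀ z ∈ Pl s b κ t.1 t.2.1, z ∈ GFull (VV S dd f) → VV S dd f z m t.2.2 := by
  by_contra hcon
  push Not at hcon
  obtain ⟨z, hz, hQ⟩ := fusion (pl_closed s b κ x n) (pl_nonempty s b κ x n)
    (ι := (ℕ × List ι) × Bool)
    (fun i L => L.length ∈ S ∧ ¬ ∃ s' : List Bool, KK m * s'.length ≤ L.length ∧
      evl dd i.1 L s' = hist (pat f m i.2) L.length) (by
    rintro ⟨D, v⟩ z hz k
    obtain ⟨z', hz', hfull, hv⟩ := hcon (z, max n k, v) hz (le_max_left _ _)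
    refine ⟨z', pl_sub hz (le_max_left _ _) hz',
      fun i hi => hz'.1 i (lt_of_lt_of_le hi (le_max_right _ _)), ?_⟩
    by_contra hcon2
    push Not at hcon2
    have h1 : z' ∈ Wk S dd f m D k v := by
      intro n' hnS hn'
      obtain ⟨s', h2, h3⟩ := hcon2 n' hn' (by rw [hist_length]; exact hnS)
      rw [hist_length] at h2 h3
      exact ⟨s', h2, h3⟩
    obtain ⟨a, ha⟩ := hfull m
    have h2 := wk_unique hf hfull h1 ha
    rw [h2] at ha
    exact hv ha)
  obtain ⟨a, ha⟩ := h z hz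
  obtain ⟨D, N, hD⟩ := vv_wk ha
  obtain ⟨n', hn', h1, h2⟩ := hQ (D, a) N
  refine h2 ?_
  rw [hist_length] at h1 ⊢
  exact hD n' h1 hn'

/-- The constraints: the moves before `m` of the play `y` are coded in the columns. -/
def kap2 (f : ℕ → Bool → Bool) (y : ℕ → Bool) (m q : ℕ) : Option Bool :=
  if col q < m then some (f q (y (col q))) else none

theorem kap2_mono {y : ℕ → Bool} {m q : ℕ} {a : Bool} (h : kap2 f y m q = some a) :
    kap2 f y (m + 1) q = some a := by
  unfold kap2 at *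
  by_cases h1 : col q < m
  · rw [if_pos h1] at h
    rw [if_pos (by omega)]
    exact h
  · rw [if_neg h1] at h
    exact absurd h (by simp)

theorem kap2_congr {y y' : ℕ → Bool} {m : ℕ} (h : ∀ i < m, y i = y' i) :
    kap2 f y m = kap2 f y' m := by
  funext q
  unfold kap2
  by_cases h1 : col q < m
  · rw [if_pos h1, if_pos h1, h _ h1]
  · rw [if_neg h1, if_neg h1]

open Classical in
/-- A choice of the smaller set and of the fixed value. -/
noncomputable def frz2 (S : Set ℕ) (dd : ι → Dec) (f : ℕ → Bool → Bool)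
    (s : List Bool → Bool) (b m : ℕ) (κ : ℕ → Option Bool) (p : (ℕ → Bool) × ℕ) :
    (ℕ → Bool) × ℕ × Bool :=
  if h : ∃ t : (ℕ → Bool) × ℕ × Bool, t.1 ∈ Pl s b κ p.1 p.2 ∧ p.2 ≤ t.2.1 ∧
      ∀ z ∈ Pl s b κ t.1 t.2.1, z ∈ GFull (VV S dd f) → VV S dd f z m t.2.2 then h.choose
    else (p.1, p.2, false)

theorem frz2_sub (s : List Bool → Bool) (b m : ℕ) (κ : ℕ → Option Bool) (p : (ℕ → Bool) × ℕ) :
    Pl s b κ (frz2 S dd f s b m κ p).1 (frz2 S dd f s b m κ p).2.1 ⊆ Pl s b κ p.1 p.2 := by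
  unfold frz2
  split_ifs with h
  · exact pl_sub h.choose_spec.1 h.choose_spec.2.1
  · exact subset_rfl

theorem frz2_val [Countable ι] (hf : Rnd S dd f) {s : List Bool → Bool} {b m : ℕ}
    {κ : ℕ → Option Bool} {p : (ℕ → Bool) × ℕ} (h : ∀ z ∈ Pl s b κ p.1 p.2, GD (VV S dd f) z m) :
    ∀ z ∈ Pl s b κ (frz2 S dd f s b m κ p).1 (frz2 S dd f s b m κ p).2.1, z ∈ GFull (VV S dd f) →
      VV S dd f z m (frz2 S dd f s b m κ p).2.2 := by
  have h1 := freeze2 hf h
  unfold frz2
  rw [dif_pos h1]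
  exact h1.choose_spec.2.2

/-- The simulated position after `m` moves of the play `y`. -/
noncomputable def st2 (S : Set ℕ) (dd : ι → Dec) (f : ℕ → Bool → Bool)
    (s : List Bool → Bool) (b : ℕ) (y : ℕ → Bool) : ℕ → (ℕ → Bool) × ℕ
  | 0 => (fun _ => false, 0)
  | m + 1 =>
    if m % 2 = b then
      ((frz2 S dd f s b m (kap2 f y m) (st2 S dd f s b y m)).1,
        (frz2 S dd f s b m (kap2 f y m) (st2 S dd f s b y m)).2.1)
    else st2 S dd f s b y m

theorem st2_congr {s : List Bool → Bool} {b : ℕ} {y y' : ℕ → Bool} {m : ℕ}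
    (h : ∀ i < m, y i = y' i) : st2 S dd f s b y m = st2 S dd f s b y' m := by
  induction m with
  | zero => rfl
  | succ m ih =>
    have h1 : ∀ i < m, y i = y' i := fun i hi => h i (by omega)
    simp only [st2]
    rw [ih h1, kap2_congr h1]

/-- The plays in the simulated position. -/
def Sim2 (S : Set ℕ) (dd : ι → Dec) (f : ℕ → Bool → Bool) (s : List Bool → Bool)
    (b : ℕ) (y : ℕ → Bool) (m : ℕ) : Set (ℕ → Bool) :=
  Pl s b (kap2 f y m) (st2 S dd f s b y m).1 (st2 S dd f s b y m).2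

theorem sim2_sub (s : List Bool → Bool) (b : ℕ) (y : ℕ → Bool) (m : ℕ) :
    Sim2 S dd f s b y (m + 1) ⊆ Sim2 S dd f s b y m := by
  have h1 : ∀ q a, q % 2 ≠ b → kap2 f y m q = some a → kap2 f y (m + 1) q = some a :=
    fun q a _ h => kap2_mono h
  unfold Sim2
  refine (pl_mono h1).trans ?_
  by_cases hm : m % 2 = b
  · have : st2 S dd f s b y (m + 1) = ((frz2 S dd f s b m (kap2 f y m) (st2 S dd f s b y m)).1,
        (frz2 S dd f s b m (kap2 f y m) (st2 S dd f s b y m)).2.1) := by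
      simp only [st2]
      rw [if_pos hm]
    rw [this]
    exact frz2_sub s b m _ _
  · have : st2 S dd f s b y (m + 1) = st2 S dd f s b y m := by
      simp only [st2]
      rw [if_neg hm]
    rw [this]

theorem sim2_anti (s : List Bool → Bool) (b : ℕ) (y : ℕ → Bool) {m m' : ℕ} (h : m ≤ m') :
    Sim2 S dd f s b y m' ⊆ Sim2 S dd f s b y m := by
  induction m', h using Nat.le_induction with
  | base => exact subset_rfl
  | succ m' _ ih => exact (sim2_sub s b y m').trans ih

theorem sim2_zero {s : List Bool → Bool} {b : ℕ} {y z : ℕ → Bool} {m : ℕ}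
    (h : z ∈ Sim2 S dd f s b y m) : ∀ q, q % 2 = b → z q = s (hist z q) := by
  have h1 : z ∈ Sim2 S dd f s b y 0 := sim2_anti s b y (Nat.zero_le m) h
  obtain ⟨-, h2, -⟩ := h1
  exact fun q hq => h2 q (Nat.zero_le _) hq

/-- The moves of the opponent are defined in the simulated plays. -/
theorem sim2_opp {s : List Bool → Bool} {b : ℕ} {y z : ℕ → Bool} {m : ℕ}
    (h : z ∈ Sim2 S dd f s b y m) {j : ℕ} (hj : j < m) (hjb : j % 2 ≠ b) :
    VV S dd f z j (y j) := by
  refine vv_of_col (N := (st2 S dd f s b y m).2) fun q hq hc => ?_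
  refine h.2.2 q hq (by rw [← col_mod q, hc]; exact hjb) _ ?_
  unfold kap2
  rw [hc, if_pos hj]

theorem wn_of_gpay [Countable ι] (hf : Rnd S dd f) {b : ℕ} (hb : b < 2)
    {B : Set (ℕ → Bool)} (h : Wn b (GPay (VV S dd f) b B)) : Wn b B := by
  obtain ⟨s, hs⟩ := h
  let dec : List Bool → ℕ → Bool := fun L i => L.getD i false
  refine ⟨fun L => (frz2 S dd f s b L.length (kap2 f (dec L) L.length)
    (st2 S dd f s b (dec L) L.length)).2.2, fun y hy => ?_⟩
  have hy' : ∀ m, m % 2 = b →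
      y m = (frz2 S dd f s b m (kap2 f y m) (st2 S dd f s b y m)).2.2 := by
    intro m hm
    have h1 : ∀ i < m, dec (hist y m) i = y i := fun i hi => hist_getD hi
    rw [hy m hm]
    simp only [hist_length]
    rw [kap2_congr h1, st2_congr h1]
  have hdef : ∀ m, m % 2 = b → ∀ w ∈ Sim2 S dd f s b y m, GD (VV S dd f) w m := by
    intro m hm w hw
    rcases hs w (sim2_zero hw) with h5 | h5
    · obtain ⟨m', h6, h7, h8⟩ := h5
      rcases lt_or_ge m m' with h9 | h9
      · exact h8 m h9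
      · exfalso
        refine h7 ⟨_, sim2_opp hw (j := m') ?_ (by omega)⟩
        rcases h9.lt_or_eq with h10 | h10
        · exact h10
        · rw [h10] at h6
          omega
    · exact h5.1 m
  have hown : ∀ j, j % 2 = b → ∀ z ∈ Sim2 S dd f s b y (j + 1), z ∈ GFull (VV S dd f) →
      VV S dd f z j (y j) := by
    intro j hm z hz hfull
    rw [hy' j hm]
    refine frz2_val hf (hdef j hm) z ?_ hfull
    have h6 : st2 S dd f s b y (j + 1) = ((frz2 S dd f s b j (kap2 f y j) (st2 S dd f s b y j)).1,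
        (frz2 S dd f s b j (kap2 f y j) (st2 S dd f s b y j)).2.1) := by
      simp only [st2]
      rw [if_pos hm]
    have h7 : z ∈ Pl s b (kap2 f y (j + 1)) (st2 S dd f s b y (j + 1)).1
      (st2 S dd f s b y (j + 1)).2 := hz
    rw [h6] at h7
    exact pl_mono (fun q a _ h => kap2_mono h) h7
  obtain ⟨z, hz⟩ : (⋂ m, Sim2 S dd f s b y m).Nonempty := by
    refine IsCompact.nonempty_iInter_of_sequence_nonempty_isCompact_isClosed _
      (fun m => sim2_sub s b y m) (fun m => pl_nonempty _ _ _ _ _)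
      (pl_closed _ _ _ _ _).isCompact (fun m => pl_closed _ _ _ _ _)
  have hz' : ∀ m, z ∈ Sim2 S dd f s b y m := fun m => Set.mem_iInter.1 hz m
  have hopp : ∀ j, j % 2 ≠ b → VV S dd f z j (y j) := fun j hj =>
    sim2_opp (hz' (j + 1)) (Nat.lt_succ_self j) hj
  have hfull : z ∈ GFull (VV S dd f) := by
    intro j
    by_cases hj : j % 2 = b
    · exact hdef j hj z (hz' j)
    · exact ⟨_, hopp j hj⟩
  have hval : ∀ j, VV S dd f z j (y j) := by
    intro j
    by_cases hj : j % 2 = b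
    · exact hown j hj z (hz' (j + 1)) hfull
    · exact hopp j hj
  rcases hs z (sim2_zero (hz' 0)) with h5 | h5
  · exact absurd hfull (glose_full h5)
  · rw [← grd_eq hf hval]
    exact h5.2

end Pool.Agent.Q202.IDet2
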