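import Pool.Agent.Q202.IDet2.Ext

set_option autoImplicit false

namespace Pool.Agent.Q202.IDet2

open Pool.Agent.H685R3 Pool.Agent.Q202.IDet

variable {ι : Type} {S : Set ℕ} {dd : ι → Dec} {f : ℕ → Bool → Bool}

/-- The guess of the value of the move `j`, from a history. -/
theorem exists_guess2 [Countable ι] (hf : Rnd S dd f) :
    ∃ guess : ℕ → List Bool → Bool, ∀ (x : ℕ → Bool) (j : ℕ), GD (VV S dd f) x j →
      ∃ v, (x ∈ GFull (VV S dd f) → VV S dd f x j v) ∧ ∃ n₀, ∀ n, n₀ ≤ n →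
        guess j (hist x n) = v := by
  classical
  obtain ⟨e, he⟩ := exists_surjective_nat ((ℕ × List ι) × ℕ × Bool)
  let C : ℕ → ℕ → Set (ℕ → Bool) := fun i j => Wk S dd f j (e i).1 (e i).2.1 (e i).2.2
  have hC : ∀ i j, IsClosed (C i j) := fun i j => closed_wk S dd f j _ _ _
  refine ⟨fun j L => if h : ∃ i, ∃ z, hist z L.length = L ∧ z ∈ C i j then
    (e (Nat.find h)).2.2 else false, fun x j hx => ?_⟩
  have hex : ∃ i, x ∈ C i j := by
    obtain ⟨a, ha⟩ := hx
    obtain ⟨D, N, hD⟩ := vv_wk ha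
    obtain ⟨i, hi⟩ := he (D, N, a)
    refine ⟨i, ?_⟩
    change x ∈ Wk S dd f j (e i).1 (e i).2.1 (e i).2.2
    rw [hi]
    exact hD
  have hi₀ := Nat.find_spec hex
  have hmin : ∀ i < Nat.find hex, x ∉ C i j := fun i hi => Nat.find_min hex hi
  refine ⟨(e (Nat.find hex)).2.2, fun hfull => ?_, ?_⟩
  · obtain ⟨a, ha⟩ := hx
    have h1 := wk_unique hf hfull hi₀ ha
    rw [← h1]
    exact ha
  have h1 : ∀ i, ∃ n, i < Nat.find hex → ∀ z : ℕ → Bool, (∀ k < n, z k = x k) → z ∉ C i j := by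
    intro i
    by_cases hi : i < Nat.find hex
    · obtain ⟨n, hn⟩ := cyl_of_open (hC i j).isOpen_compl (hmin i hi)
      exact ⟨n, fun _ z hz => hn z hz⟩
    · exact ⟨0, fun h => absurd h hi⟩
  choose N hN using h1
  refine ⟨(Finset.range (Nat.find hex)).sup N, fun n hn => ?_⟩
  have h2 : ∃ i, ∃ z, hist z (hist x n).length = hist x n ∧ z ∈ C i j :=
    ⟨Nat.find hex, x, by rw [hist_length], hi₀⟩
  have h3 : Nat.find h2 = Nat.find hex := by
    rw [Nat.find_eq_iff]
    refine ⟨⟨x, by rw [hist_length], hi₀⟩, fun i hi => ?_⟩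
    rintro ⟨z, hz1, hz2⟩
    rw [hist_length, hist_eq_iff] at hz1
    refine hN i hi z (fun k hk => hz1 k ?_) hz2
    exact lt_of_lt_of_le hk ((Finset.le_sup (f := N) (Finset.mem_range.2 hi)).trans hn)
  simp only
  rw [dif_pos h2, h3]

theorem gpay_of_wn [Countable ι] (hf : Rnd S dd f) {b : ℕ} (hb : b < 2)
    {B : Set (ℕ → Bool)} (h : Wn b B) : Wn b (GPay (VV S dd f) b B) := by
  classical
  obtain ⟨σ, hσ⟩ := h
  obtain ⟨guess, hg⟩ := exists_guess2 hf
  let s : List Bool → Bool := fun L =>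
    f L.length (resp σ b (fun j => guess j L) (col L.length))
  refine ⟨s, fun x hx => ?_⟩
  have hv : ∀ j, ∃ v, GD (VV S dd f) x j → ((x ∈ GFull (VV S dd f) → VV S dd f x j v) ∧
      ∃ n₀, ∀ n, n₀ ≤ n → guess j (hist x n) = v) := by
    intro j
    by_cases h : GD (VV S dd f) x j
    · obtain ⟨v, h1, h2⟩ := hg x j h
      exact ⟨v, fun _ => ⟨h1, h2⟩⟩
    · exact ⟨false, fun h' => absurd h' h⟩
  choose v hv using hv
  have hn : ∀ j, ∃ n₀, GD (VV S dd f) x j → ∀ n, n₀ ≤ n → guess j (hist x n) = v j := by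
    intro j
    by_cases h : GD (VV S dd f) x j
    · obtain ⟨n₀, hn₀⟩ := (hv j h).2
      exact ⟨n₀, fun _ => hn₀⟩
    · exact ⟨0, fun h' => absurd h' h⟩
  choose n₀ hn₀ using hn
  set y := resp σ b v with hy
  have hyB : y ∈ B := hσ y fun q hq => resp_own σ b v q hq
  have own : ∀ m, m % 2 = b → (∀ j < m, j % 2 ≠ b → GD (VV S dd f) x j) →
      VV S dd f x m (y m) := by
    intro m hm hj
    refine vv_of_col (N := (Finset.range m).sup n₀) fun q hq hc => ?_
    rw [hx q (by rw [← col_mod q, hc, hm])]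
    simp only [s, hist_length]
    rw [hc]
    congr 1
    refine resp_congr (m := m) (fun j hjm hjb => ?_) m le_rfl (Or.inr hm)
    exact hn₀ j (hj j hjm hjb) q ((Finset.le_sup (f := n₀) (Finset.mem_range.2 hjm)).trans hq)
  by_cases hall : ∀ j, j % 2 ≠ b → GD (VV S dd f) x j
  · right
    have hfull : x ∈ GFull (VV S dd f) := by
      intro m
      by_cases hm : m % 2 = b
      · exact ⟨_, own m hm fun j _ hj => hall j hj⟩
      · exact hall m hm
    have hval : ∀ m, VV S dd f x m (y m) := by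
      intro m
      by_cases hm : m % 2 = b
      · exact own m hm fun j _ hj => hall j hj
      · rw [hy, resp_opp σ b v m hm]
        exact (hv m (hall m hm)).1 hfull
    refine ⟨hfull, ?_⟩
    rw [grd_eq hf hval]
    exact hyB
  · left
    push Not at hall
    have h1 := Nat.find_spec hall
    have h2 : ∀ j < Nat.find hall, j % 2 ≠ b → GD (VV S dd f) x j := by
      intro j hj hjb
      by_contra h3
      exact Nat.find_min hall hj ⟨hjb, h3⟩
    refine ⟨Nat.find hall, by omega, h1.2, fun j hj => ?_⟩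
    by_cases hjb : j % 2 = b
    · exact ⟨_, own j hjb fun i hi hib => h2 i (by omega) hib⟩
    · exact h2 j hj hjb

theorem meas_gd [Countable ι] (m : ℕ) : MeasurableSet {x : ℕ → Bool | GD (VV S dd f) x m} := by
  have : {x : ℕ → Bool | GD (VV S dd f) x m} = ⋃ a, {x : ℕ → Bool | VV S dd f x m a} := by
    ext x
    simp [GD]
  rw [this]
  exact MeasurableSet.iUnion fun a => meas_low S (evl dd) _

theorem meas_gfull [Countable ι] : MeasurableSet (GFull (VV S dd f)) := by
  have : GFull (VV S dd f) = ⋂ m, {x : ℕ → Bool | GD (VV S dd f) x m} := by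
    ext x
    simp [GFull]
  rw [this]
  exact MeasurableSet.iInter fun m => meas_gd m

theorem meas_glose [Countable ι] (b : ℕ) : MeasurableSet (GLose (VV S dd f) b) := by
  have : GLose (VV S dd f) b = ⋃ m, ⋃ (_ : m % 2 = b), ({x : ℕ → Bool | GD (VV S dd f) x m}ᶜ ∩
      ⋂ j, ⋂ (_ : j < m), {x : ℕ → Bool | GD (VV S dd f) x j}) := by
    ext x
    simp only [GLose, Set.mem_ofPred_eq, Set.mem_iUnion, Set.mem_inter_iff, Set.mem_compl_iff,
      Set.mem_iInter, exists_prop]
  rw [this]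
  exact MeasurableSet.iUnion fun m => MeasurableSet.iUnion fun _ => (meas_gd m).compl.inter
    (MeasurableSet.iInter fun j => MeasurableSet.iInter fun _ => meas_gd j)

theorem meas_grd [Countable ι] : Measurable (grd (VV S dd f)) := by
  refine measurable_pi_iff.2 fun m => ?_
  refine measurable_to_bool ?_
  have : (fun x => grd (VV S dd f) x m) ⁻¹' {true} = {x : ℕ → Bool | VV S dd f x m true} := by
    ext x
    simp [grd]
  rw [this]
  exact meas_low S (evl dd) _

/-- **Every game is equivalent to one with a payoff set which is invariant under mutual decoding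
at rate zero.** -/
theorem main2 [Countable ι] (hS : S.Infinite) (dd : ι → Dec) :
    ∃ (W D : Set (ℕ → Bool)) (F : (ℕ → Bool) → ℕ → Bool),
      MeasurableSet W ∧ MeasurableSet D ∧ Measurable F ∧
      (∀ x y, Low S dd x y → Low S dd y x → ((x ∈ W ↔ y ∈ W) ∧ (x ∈ D ↔ y ∈ D) ∧ F x = F y)) ∧
      ∀ A : Set (ℕ → Bool), (WinsI (W ∪ {x | x ∈ D ∧ F x ∈ A}) ↔ WinsI A) ∧
        (WinsII (W ∪ {x | x ∈ D ∧ F x ∈ A}) ↔ WinsII A) := by
  obtain ⟨f, hf⟩ := exists_rnd hS dd
  refine ⟨GLose (VV S dd f) 1, GFull (VV S dd f), grd (VV S dd f), meas_glose 1, meas_gfull, meas_grd,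
    fun x y hxy hyx => ?_, fun A => ?_⟩
  · have h1 : ∀ m a, VV S dd f x m a ↔ VV S dd f y m a := fun m a =>
      ⟨fun h => low_trans h hxy, fun h => low_trans h hyx⟩
    have h2 : ∀ m, GD (VV S dd f) x m ↔ GD (VV S dd f) y m := fun m => exists_congr fun a => h1 m a
    refine ⟨?_, forall_congr' h2, ?_⟩
    · simp only [GLose, Set.mem_ofPred_eq, h2]
    · funext m
      exact decide_eq_decide.2 (h1 m true)
  · have e1 : (GLose (VV S dd f) 1 ∪ {x | x ∈ GFull (VV S dd f) ∧ grd (VV S dd f) x ∈ A}) =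
        GPay (VV S dd f) 0 A := rfl
    rw [e1]
    refine ⟨?_, ?_⟩
    · rw [winsI_iff, winsI_iff]
      exact ⟨wn_of_gpay hf (by norm_num), gpay_of_wn hf (by norm_num)⟩
    · rw [winsII_iff, winsII_iff, gpay_compl]
      exact ⟨wn_of_gpay hf (by norm_num), gpay_of_wn hf (by norm_num)⟩

end Pool.Agent.Q202.IDet2
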