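import Pool.Agent.Q202.IDet2.Rand
import Pool.Agent.Q202.IDet2.Abs

set_option autoImplicit false

namespace Pool.Agent.Q202.IDet2

open Pool.Agent.H685R3 Pool.Agent.Q202.IDet

/-- `p` is decoded from `x` with advice of rate zero: for every `k` some decoder of the family
computes the first `n` bits of `p` from the first `n` bits of `x` and at most `n / (k + 1)` bits of
advice, for all large `n` in the set `S`. -/
def Low {κ : Type} (S : Set ℕ) (ev : κ → List Bool → List Bool → List Bool) (p x : ℕ → Bool) :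
    Prop :=
  ∀ k : ℕ, ∃ i, ∃ N, ∀ n ∈ S, N ≤ n → ∃ s : List Bool,
    (k + 1) * s.length ≤ n ∧ ev i (hist x n) s = hist p n

/-- The decoder which copies the column `m` apart from the positions given by the advice. -/
def cpy (m : ℕ) : Dec := fun L s => (List.range L.length).map fun q =>
  if q < s.length then s.getD q false else if col q = m then L.getD q false else false

/-- The coding of two strings of advice by one. -/
def enc : List Bool → List Bool → List Bool
  | [], s => false :: s
  | a :: t, s => true :: a :: enc t s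

/-- The decoding of two strings of advice from one. -/
def spl : List Bool → List Bool × List Bool
  | false :: s => ([], s)
  | true :: a :: t => (a :: (spl t).1, (spl t).2)
  | _ => ([], [])

theorem spl_enc (t s : List Bool) : spl (enc t s) = (t, s) := by
  induction t with
  | nil => rfl
  | cons a t ih => simp [enc, spl, ih]

theorem enc_length (t s : List Bool) : (enc t s).length = 2 * t.length + 1 + s.length := by
  induction t with
  | nil => simp [enc, Nat.add_comm]
  | cons a t ih => simp only [enc, List.length_cons, ih]; ring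

variable {ι : Type} {S : Set ℕ}

/-- The decoders composed of a copying decoder and of decoders of the family. -/
def cls (dd : ι → Dec) (m : ℕ) : List ι → Dec
  | [] => cpy m
  | i :: l => fun L t => cls dd m l (dd i L (spl t).1) (spl t).2

/-- The family of the composed decoders. -/
def evl (dd : ι → Dec) (p : ℕ × List ι) : Dec := cls dd p.1 p.2

theorem low_trans {dd : ι → Dec} {p x y : ℕ → Bool} (h : Low S (evl dd) p x) (h' : Low S dd x y) :
    Low S (evl dd) p y := by
  intro k
  obtain ⟨⟨m, l⟩, N, hN⟩ := h (4 * k + 3)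
  obtain ⟨i, N', hN'⟩ := h' (4 * k + 3)
  refine ⟨(m, i :: l), max (max N N') (4 * k + 4), fun n hnS hn => ?_⟩
  obtain ⟨s, h1, h2⟩ := hN n hnS (le_trans (le_trans (le_max_left _ _) (le_max_left _ _)) hn)
  obtain ⟨s', h3, h4⟩ := hN' n hnS (le_trans (le_trans (le_max_right _ _) (le_max_left _ _)) hn)
  have h5 : 4 * k + 4 ≤ n := le_trans (le_max_right _ _) hn
  refine ⟨enc s' s, ?_, ?_⟩
  · rw [enc_length]
    nlinarith
  · have h6 : evl dd (m, i :: l) (hist y n) (enc s' s) =
        cls dd m l (dd i (hist y n) (spl (enc s' s)).1) (spl (enc s' s)).2 := rfl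
    rw [h6, spl_enc, h4]
    exact h2

/-- The coded value of the move number `m` is `a`. -/
def VV (S : Set ℕ) (dd : ι → Dec) (f : ℕ → Bool → Bool) (x : ℕ → Bool) (m : ℕ) (a : Bool) : Prop :=
  Low S (evl dd) (pat f m a) x

theorem vv_of_col {dd : ι → Dec} {f : ℕ → Bool → Bool} {z : ℕ → Bool} {m N : ℕ} {a : Bool}
    (h : ∀ q, N ≤ q → col q = m → z q = f q a) : VV S dd f z m a := by
  intro k
  refine ⟨(m, []), max N ((k + 1) * N), fun n _ hn => ⟨hist (pat f m a) N, ?_, ?_⟩⟩
  · rw [hist_length]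
    exact le_trans (le_max_right _ _) hn
  · have hNn : N ≤ n := le_trans (le_max_left _ _) hn
    change cpy m (hist z n) (hist (pat f m a) N) = hist (pat f m a) n
    unfold cpy
    rw [hist_length, hist_length]
    refine List.map_congr_left fun q hq => ?_
    have hq' : q < n := List.mem_range.1 hq
    by_cases h1 : q < N
    · rw [if_pos h1, hist_getD h1]
    · rw [if_neg h1, hist_getD hq']
      unfold pat
      by_cases h2 : col q = m
      · rw [if_pos h2, if_pos h2, h q (not_lt.1 h1) h2]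
      · rw [if_neg h2, if_neg h2]

/-- The value `v` of the move `j` is decoded with a small amount of advice. -/
def Wk (S : Set ℕ) (dd : ι → Dec) (f : ℕ → Bool → Bool) (j : ℕ) (D : ℕ × List ι) (N : ℕ) (v : Bool) :
    Set (ℕ → Bool) :=
  {x | ∀ n ∈ S, N ≤ n → ∃ s : List Bool, KK j * s.length ≤ n ∧
    evl dd D (hist x n) s = hist (pat f j v) n}

theorem KK_pos (j : ℕ) : 0 < KK j := by unfold KK; positivity

theorem vv_wk {dd : ι → Dec} {f : ℕ → Bool → Bool} {x : ℕ → Bool} {j : ℕ} {v : Bool}
    (h : VV S dd f x j v) : ∃ D N, x ∈ Wk S dd f j D N v := by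
  obtain ⟨D, N, hN⟩ := h (KK j - 1)
  refine ⟨D, N, fun n hnS hn => ?_⟩
  obtain ⟨s, h1, h2⟩ := hN n hnS hn
  have : KK j - 1 + 1 = KK j := Nat.sub_add_cancel (KK_pos j)
  rw [this] at h1
  exact ⟨s, h1, h2⟩

/-- The patterns are random for the composed decoders. -/
def Rnd (S : Set ℕ) (dd : ι → Dec) (f : ℕ → Bool → Bool) : Prop :=
  ∀ (j : ℕ) (v : Bool) (Ds : Fin (MM j) → ℕ × List ι) (D' : ℕ × List ι)
    (a : Fin (MM j) → Bool), a ⟨j, lt_MM j⟩ ≠ v →
      ∀ N, ∃ n ∈ S, N ≤ n ∧ ¬ Bad (evl dd) f n j v Ds D' a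

theorem exists_rnd [Countable ι] (hS : S.Infinite) (dd : ι → Dec) : ∃ f, Rnd S dd f :=
  exists_random (evl dd) hS

theorem wk_unique {dd : ι → Dec} {f : ℕ → Bool → Bool} (hf : Rnd S dd f) {x : ℕ → Bool}
    (hx : x ∈ GFull (VV S dd f)) {j : ℕ} {D : ℕ × List ι} {N : ℕ} {v a : Bool}
    (h : x ∈ Wk S dd f j D N v) (ha : VV S dd f x j a) : a = v := by
  classical
  by_contra hne
  choose c hc using hx
  let b : ℕ → Bool := fun i => if i = j then a else c i
  have hb : ∀ i, VV S dd f x i (b i) := by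
    intro i
    by_cases h1 : i = j
    · subst h1
      simp only [b, if_true]
      exact ha
    · simp only [b, if_neg h1]
      exact hc i
  have h1 : ∀ i : Fin (MM j), ∃ D N, ∀ n ∈ S, N ≤ n → ∃ s : List Bool,
      MM j * KK j * s.length ≤ n ∧ evl dd D (hist x n) s = hist (pat f i (b i)) n := by
    intro i
    obtain ⟨D, N, hN⟩ := hb i (MM j * KK j - 1)
    refine ⟨D, N, fun n hnS hn => ?_⟩
    obtain ⟨s, h1, h2⟩ := hN n hnS hn
    have h3 : MM j * KK j - 1 + 1 = MM j * KK j :=
      Nat.sub_add_cancel (Nat.mul_pos (lt_of_le_of_lt (Nat.zero_le _) (lt_MM j)) (KK_pos j))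
    rw [h3] at h1
    exact ⟨s, h1, h2⟩
  choose Ds Ns hDs using h1
  obtain ⟨n, hnS, hn, hbad⟩ := hf j v Ds D (fun i => b i) (by simpa [b] using hne)
    (max N (Finset.univ.sup Ns))
  refine hbad ⟨hist x n, hist_length x n, fun i => ?_, ?_⟩
  · exact hDs i n hnS (le_trans (Finset.le_sup (f := Ns) (Finset.mem_univ i))
      (le_trans (le_max_right _ _) hn))
  · exact h n hnS (le_trans (le_max_left _ _) hn)

theorem vv_unique {dd : ι → Dec} {f : ℕ → Bool → Bool} (hf : Rnd S dd f) {x : ℕ → Bool}
    (hx : x ∈ GFull (VV S dd f)) {j : ℕ} {v a : Bool} (h : VV S dd f x j v) (ha : VV S dd f x j a) :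
    a = v := by
  obtain ⟨D, N, h⟩ := vv_wk h
  exact wk_unique hf hx h ha

/-- The decoded play of a full position. -/
theorem grd_eq {dd : ι → Dec} {f : ℕ → Bool → Bool} (hf : Rnd S dd f) {x y : ℕ → Bool}
    (h : ∀ j, VV S dd f x j (y j)) : grd (VV S dd f) x = y := by
  have hx : x ∈ GFull (VV S dd f) := fun j => ⟨_, h j⟩
  funext j
  have h2 := h j
  cases hyj : y j with
  | true =>
    rw [hyj] at h2
    simpa [grd] using h2
  | false =>
    rw [hyj] at h2
    have h3 : ¬ VV S dd f x j true := fun h4 => by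
      have := vv_unique hf hx h4 h2
      exact absurd this (by simp)
    simpa [grd] using h3

theorem closed_wk (S : Set ℕ) (dd : ι → Dec) (f : ℕ → Bool → Bool) (j : ℕ) (D : ℕ × List ι) (N : ℕ)
    (v : Bool) : IsClosed (Wk S dd f j D N v) := by
  have h1 : Wk S dd f j D N v = ⋂ n, ⋂ (_ : n ∈ S), ⋂ (_ : N ≤ n), {x : ℕ → Bool | ∃ s : List Bool,
      KK j * s.length ≤ n ∧ evl dd D (hist x n) s = hist (pat f j v) n} := by
    ext x
    simp [Wk]
  rw [h1]
  refine isClosed_iInter fun n => isClosed_iInter fun _ => isClosed_iInter fun _ =>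
    closed_of_det n ?_
  rintro z z' hzz ⟨s, h2, h3⟩
  exact ⟨s, h2, by rw [← hist_congr hzz]; exact h3⟩

theorem meas_low [Countable ι] (S : Set ℕ) (dd : ι → Dec) (p : ℕ → Bool) :
    MeasurableSet {x : ℕ → Bool | Low S dd p x} := by
  have h1 : {x : ℕ → Bool | Low S dd p x} = ⋂ k : ℕ, ⋃ i, ⋃ N, ⋂ n, ⋂ (_ : n ∈ S), ⋂ (_ : N ≤ n),
      {x : ℕ → Bool | ∃ s : List Bool, (k + 1) * s.length ≤ n ∧ dd i (hist x n) s = hist p n} := by
    ext x
    simp only [Low, Set.mem_ofPred_eq, Set.mem_iInter, Set.mem_iUnion]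
  rw [h1]
  refine MeasurableSet.iInter fun k => MeasurableSet.iUnion fun i => MeasurableSet.iUnion fun N =>
    MeasurableSet.iInter fun n => MeasurableSet.iInter fun _ => MeasurableSet.iInter fun _ => ?_
  refine IsClosed.measurableSet (closed_of_det n ?_)
  rintro z z' hzz ⟨s, h2, h3⟩
  exact ⟨s, h2, by rw [← hist_congr hzz]; exact h3⟩

end Pool.Agent.Q202.IDet2
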