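import Pool.Agent.Q202.IDet.Game
import Pool.Agent.Q202.IDet2.Col

set_option autoImplicit false

namespace Pool.Agent.Q202.IDet2

open Pool.Agent.H685R3 Pool.Agent.Q202.IDet

/-- A decoder computes a list from a list and an advice. -/
abbrev Dec : Type := List Bool → List Bool → List Bool

/-- The pattern which codes the bit `a` in the column `m`. -/
def pat (f : ℕ → Bool → Bool) (m : ℕ) (a : Bool) (q : ℕ) : Bool :=
  if col q = m then f q a else false

/-- The number of the columns which are relevant for the column `j`. -/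
def MM (j : ℕ) : ℕ := 2 * (j / 2) + 8

/-- The inverse of the rate of the advice which is harmless for the column `j`. -/
def KK (j : ℕ) : ℕ := 2 ^ (j / 2 + 4)

theorem lt_MM (j : ℕ) : j < MM j := by unfold MM; omega

/-- The coding of short lists. -/
def cod (B : ℕ) (s : List Bool) : Fin (B + 1) → Bool :=
  fun i => if i.1 < s.length then s.getD i false else decide (i.1 = s.length)

theorem cod_inj {B : ℕ} {s t : List Bool} (hs : s.length ≤ B) (ht : t.length ≤ B)
    (h : cod B s = cod B t) : s = t := by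
  have key : ∀ s t : List Bool, t.length ≤ B → cod B s = cod B t → ¬ s.length < t.length := by
    intro s t ht h hlt
    have h1 := congrFun h ⟨t.length, by omega⟩
    simp only [cod, lt_irrefl, if_false, if_neg (not_lt.2 hlt.le)] at h1
    simp at h1
    omega
  have hlen : s.length = t.length := by
    have h1 := key s t ht h
    have h2 := key t s hs h.symm
    omega
  refine List.ext_getElem hlen fun i h1 h2 => ?_
  have h3 := congrFun h ⟨i, by omega⟩
  simp only [cod, if_pos h1, if_pos h2] at h3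
  rw [List.getD_eq_getElem _ _ h1, List.getD_eq_getElem _ _ h2] at h3
  exact h3

variable {κ : Type}

/-- The patterns of all relevant columns, and a second pattern of the column `j`, are decoded from
one list. -/
def Bad (ev : κ → Dec) (g : ℕ → Bool → Bool) (n j : ℕ) (v : Bool) (Ds : Fin (MM j) → κ) (D' : κ)
    (a : Fin (MM j) → Bool) : Prop :=
  ∃ L : List Bool, L.length = n ∧
    (∀ i, ∃ s : List Bool, MM j * KK j * s.length ≤ n ∧
      ev (Ds i) L s = hist (pat g i (a i)) n) ∧
    ∃ s : List Bool, KK j * s.length ≤ n ∧ ev D' L s = hist (pat g j v) n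

theorem hist_pat_congr {f g : ℕ → Bool → Bool} {n : ℕ} (h : ∀ k < n, f k = g k) (m : ℕ)
    (a : Bool) : hist (pat f m a) n = hist (pat g m a) n :=
  hist_congr fun i hi => by unfold pat; rw [h i hi]

theorem extend (ev : κ → Dec) {S : Set ℕ} (hS : S.Infinite) (j : ℕ) (v : Bool)
    (Ds : Fin (MM j) → κ) (D' : κ) (a : Fin (MM j) → Bool) (hav : a ⟨j, lt_MM j⟩ ≠ v)
    (f : ℕ → Bool → Bool) (n₀ N : ℕ) :
    ∃ g : ℕ → Bool → Bool, ∃ n ∈ S, N ≤ n ∧ n₀ ≤ n ∧ (∀ k < n₀, g k = f k) ∧
      ¬ Bad ev g n j v Ds D' a := by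
  classical
  set k := j / 2 with hk
  obtain ⟨n, hnS, hn⟩ := hS.exists_gt (2 * (KK j * (2 * n₀ + MM j + 6)) + N + n₀)
  have hKpos : 0 < KK j := by unfold KK; positivity
  set u := n / (2 * KK j) with hu
  have hn1 : KK j * (2 * u) ≤ n := by
    have h1 : 2 * KK j * u ≤ n := Nat.mul_div_le _ _
    calc KK j * (2 * u) = 2 * KK j * u := by ring
      _ ≤ n := h1
  have hn2 : n < KK j * (2 * u + 2) := by
    have h1 : n < 2 * KK j * (n / (2 * KK j)) + 2 * KK j := Nat.lt_mul_div_succ n (by positivity)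
    rw [← hu] at h1
    calc n < 2 * KK j * u + 2 * KK j := h1
      _ = KK j * (2 * u + 2) := by ring
  have hu2 : 2 * n₀ + MM j + 6 ≤ u := by
    rw [hu, Nat.le_div_iff_mul_le (by positivity)]
    calc (2 * n₀ + MM j + 6) * (2 * KK j) = 2 * (KK j * (2 * n₀ + MM j + 6)) := by ring
      _ ≤ n := by omega
  by_contra hcon
  push Not at hcon
  let S₁ := (Finset.range n).filter fun q => n₀ ≤ q ∧ col q < MM j
  let S₂ := (Finset.range n).filter fun q => n₀ ≤ q ∧ col q = j
  have c₁ : n ≤ S₁.card + n₀ + 2 * (u + 1) := by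
    have h0 : n ≤ 2 * (2 ^ (k + 4) * (u + 1)) := by
      have h1 : KK j * (2 * u + 2) = 2 * (2 ^ (k + 4) * (u + 1)) := by unfold KK; ring
      omega
    have h1 : Finset.range n ⊆ (S₁ ∪ Finset.range n₀) ∪
        (Finset.range (2 * (2 ^ (k + 4) * (u + 1)))).filter fun q => 2 * (k + 4) ≤ col q := by
      intro q hq
      have hq' := Finset.mem_range.1 hq
      rw [Finset.mem_union, Finset.mem_union, Finset.mem_filter, Finset.mem_filter,
        Finset.mem_range, Finset.mem_range, Finset.mem_range]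
      unfold MM
      omega
    have h2 := Finset.card_le_card h1
    have h3 := Finset.card_union_le (S₁ ∪ Finset.range n₀)
      ((Finset.range (2 * (2 ^ (k + 4) * (u + 1)))).filter fun q => 2 * (k + 4) ≤ col q)
    have h4 := Finset.card_union_le S₁ (Finset.range n₀)
    have h5 := card_big (k + 4) (u + 1)
    rw [Finset.card_range] at h2 h4
    omega
  have c₂ : 8 * u ≤ S₂.card + n₀ := by
    have h0 : 2 * (2 ^ (j / 2 + 1) * (8 * u)) ≤ n := by
      have h1 : KK j * (2 * u) = 2 * (2 ^ (j / 2 + 1) * (8 * u)) := by unfold KK; ring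
      omega
    have h1 : ((Finset.range (2 * (2 ^ (j / 2 + 1) * (8 * u)))).filter fun q => col q = j) ⊆
        S₂ ∪ Finset.range n₀ := by
      intro q hq
      simp only [Finset.mem_union, Finset.mem_filter, S₂, Finset.mem_range] at hq ⊢
      omega
    have h2 := Finset.card_le_card h1
    have h4 := Finset.card_union_le S₂ (Finset.range n₀)
    have h5 := card_col j (8 * u)
    rw [Finset.card_range] at h4
    omega
  let G : (S₁ → Bool) × (S₂ → Bool) → ℕ → Bool → Bool := fun h q w =>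
    if q < n₀ then f q w else
      if col q = j ∧ w = v then (if hq : q ∈ S₂ then h.2 ⟨q, hq⟩ else false) else
        if hq : q ∈ S₁ then h.1 ⟨q, hq⟩ else false
  have hG : ∀ h, Bad ev (G h) n j v Ds D' a := fun h => by
    refine hcon (G h) n hnS (by omega) (by omega) fun q hq => ?_
    funext w
    simp only [G, if_pos hq]
  have hG₁ : ∀ h, ∀ q : S₁, ∀ hM : col q.1 < MM j,
      pat (G h) (col q.1) (a ⟨col q.1, hM⟩) q.1 = h.1 q := by
    rintro h ⟨q, hq⟩ hM
    have hq1 := Finset.mem_filter.1 hq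
    have h1 : ¬ (col q = j ∧ a ⟨col q, hM⟩ = v) := by
      rintro ⟨h1, h2⟩
      have h3 : (⟨col q, hM⟩ : Fin (MM j)) = ⟨j, lt_MM j⟩ := Fin.ext h1
      rw [h3] at h2
      exact hav h2
    simp only [pat, if_true, G, if_neg (not_lt.2 hq1.2.1), if_neg h1, dif_pos hq]
  have hG₂ : ∀ h, ∀ q : S₂, pat (G h) j v q.1 = h.2 q := by
    rintro h ⟨q, hq⟩
    have hq1 := Finset.mem_filter.1 hq
    simp only [pat, hq1.2.2, if_true, G, if_neg (not_lt.2 hq1.2.1), and_self, dif_pos hq]
  unfold Bad at hG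
  choose L hL H s' hs1 hs2 using hG
  choose s hs hs' using H
  set B := n / (MM j * KK j) with hB
  have hMpos : 0 < MM j := by unfold MM; omega
  have hslen : ∀ h i, (s h i).length ≤ B := by
    intro h i
    rw [hB, Nat.le_div_iff_mul_le (Nat.mul_pos hMpos hKpos), mul_comm]
    exact hs h i
  have hslen' : ∀ h, (s' h).length ≤ 2 * u + 1 := by
    intro h
    have h1 := Nat.lt_of_mul_lt_mul_left (lt_of_le_of_lt (hs1 h) hn2)
    omega
  have hMB : MM j * B ≤ 2 * u + 1 := by
    have h1 : MM j * KK j * B ≤ n := Nat.mul_div_le _ _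
    have h2 : KK j * (MM j * B) < KK j * (2 * u + 2) := by
      calc KK j * (MM j * B) = MM j * KK j * B := by ring
        _ ≤ n := h1
        _ < _ := hn2
    have h3 := Nat.lt_of_mul_lt_mul_left h2
    omega
  let E : (S₁ → Bool) × (S₂ → Bool) →
      (Fin n → Bool) × (Fin (MM j) → Fin (B + 1) → Bool) × (Fin (2 * u + 1 + 1) → Bool) :=
    fun h => (fun i => (L h).getD i false, fun i => cod B (s h i), cod (2 * u + 1) (s' h))
  have hE : Function.Injective E := by
    intro h h' hh
    have e1 : L h = L h' := by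
      refine List.ext_getElem (by rw [hL, hL]) fun i h1 h2 => ?_
      have h3 := congrFun (congrArg Prod.fst hh) ⟨i, by rw [← hL h]; exact h1⟩
      simp only [E] at h3
      rw [List.getD_eq_getElem _ _ h1, List.getD_eq_getElem _ _ h2] at h3
      exact h3
    have e2 : ∀ i, s h i = s h' i := fun i =>
      cod_inj (hslen h i) (hslen h' i) (congrFun (congrArg (fun p => p.2.1) hh) i)
    have e3 : s' h = s' h' := cod_inj (hslen' h) (hslen' h') (congrArg (fun p => p.2.2) hh)
    refine Prod.ext (funext fun q => ?_) (funext fun q => ?_)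
    · have hq1 := Finset.mem_filter.1 q.2
      rw [← hG₁ h q hq1.2.2, ← hG₁ h' q hq1.2.2]
      have h1 := hs' h ⟨col q.1, hq1.2.2⟩
      have h2 := hs' h' ⟨col q.1, hq1.2.2⟩
      rw [e1, e2, h2] at h1
      exact hist_eq_iff.1 h1.symm q.1 (Finset.mem_range.1 hq1.1)
    · have hq1 := Finset.mem_filter.1 q.2
      rw [← hG₂ h q, ← hG₂ h' q]
      have h1 := hs2 h
      have h2 := hs2 h'
      rw [e1, e3, h2] at h1
      exact hist_eq_iff.1 h1.symm q.1 (Finset.mem_range.1 hq1.1)
  have hcard := Fintype.card_le_of_injective E hE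
  simp only [Fintype.card_prod, Fintype.card_fun, Fintype.card_bool, Fintype.card_fin,
    Fintype.card_coe] at hcard
  rw [← pow_add, ← pow_mul, ← pow_add, ← pow_add] at hcard
  have h9 := (Nat.pow_le_pow_iff_right (by norm_num : 1 < 2)).1 hcard
  have h10 : (B + 1) * MM j = MM j * B + MM j := by ring
  rw [h10] at h9
  omega

/-- There are two patterns which are sufficiently random for a countable set of decoders. -/
theorem exists_random [Countable κ] (ev : κ → Dec) {S : Set ℕ} (hS : S.Infinite) :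
    ∃ f : ℕ → Bool → Bool,
    ∀ (j : ℕ) (v : Bool) (Ds : Fin (MM j) → κ) (D' : κ) (a : Fin (MM j) → Bool),
      a ⟨j, lt_MM j⟩ ≠ v → ∀ N, ∃ n ∈ S, N ≤ n ∧ ¬ Bad ev f n j v Ds D' a := by
  classical
  let ι := (j : ℕ) × (Bool × (Fin (MM j) → κ) × κ × (Fin (MM j) → Bool) × ℕ)
  let R : ι → (ℕ → Bool → Bool) → ℕ → Prop := fun i g m =>
    i.2.2.2.2.1 ⟨i.1, lt_MM i.1⟩ ≠ i.2.1 → ∃ n ∈ S, i.2.2.2.2.2 ≤ n ∧ n ≤ m ∧
      ¬ Bad ev g n i.1 i.2.1 i.2.2.1 i.2.2.2.1 i.2.2.2.2.1
  obtain ⟨f, hf⟩ := exists_generic (fun _ _ => false) R (fun i f g m hfg hR hne => by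
      obtain ⟨n, h0, h1, h2, h3⟩ := hR hne
      refine ⟨n, h0, h1, h2, fun h4 => h3 ?_⟩
      obtain ⟨L, h5, h6, s, h7, h8⟩ := h4
      have hc : ∀ m a, hist (pat f m a) n = hist (pat g m a) n :=
        fun m a => hist_pat_congr (fun k hk => hfg k (by omega)) m a
      refine ⟨L, h5, fun i' => ?_, s, h7, by rw [hc]; exact h8⟩
      obtain ⟨s₂, h9, h10⟩ := h6 i'
      exact ⟨s₂, h9, by rw [hc]; exact h10⟩) (fun i f n₀ => by
      by_cases hne : i.2.2.2.2.1 ⟨i.1, lt_MM i.1⟩ ≠ i.2.1
      · obtain ⟨g, n, h0, h1, h2, h3, h4⟩ :=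
          extend ev hS i.1 i.2.1 i.2.2.1 i.2.2.2.1 i.2.2.2.2.1 hne f n₀ i.2.2.2.2.2
        exact ⟨g, n, h3, fun _ => ⟨n, h0, h1, le_rfl, h4⟩⟩
      · exact ⟨f, 0, fun _ _ => rfl, fun h => absurd h hne⟩)
  refine ⟨f, fun j v Ds D' a hne N => ?_⟩
  obtain ⟨m, hm⟩ := hf ⟨j, v, Ds, D', a, N⟩
  obtain ⟨n, h0, h1, -, h3⟩ := hm hne
  exact ⟨n, h0, h1, h3⟩

end Pool.Agent.Q202.IDet2
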